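import Pool.Agent.helper74.VDI.SpecF
import Pool.Agent.helper48.VD.BC2D

/-!
# Project INF (MP_07c750_an), row BC2F: Borel-Cantelli for families
-/

set_option autoImplicit false

open scoped ContDiff Topology InnerProductSpace ENNReal ComplexConjugate
open MeasureTheory Filter Set

namespace Pool.Agent.VDI

open Pool.Agent.RPQ (PN PJ UN upd)
open Pool.Agent.VQ (CH rk)
open Pool.Agent.VN (aN)
open Pool.Agent.VD
open Pool.Agent.VDE (UWLD FDX)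

noncomputable section

variable {d : ℕ}

theorem BC2F_proof (hIUWD : VD.IUWD_stmt) (hSED : VD.SED_stmt) (hPODF : PODF_stmt) (hCFC : VD.CFC_stmt)
    (hNNC : VD.NNC_stmt) (hMVE : VD.MVE_stmt) (hRSM : RPQ.RSM_stmt) : BC2F_stmt := by
  intro d Γ _ _ K F0 Cn k0 J p χ m0 Gs h2d hFd hFX hFam hSF hBCP h e hTD he
  obtain ⟨hP, hone, -⟩ := hRSM
  have := hP
  obtain ⟨hS1, hS2⟩ := hSED d Γ K Cn k0 J p χ hFd hFam
  choose b hb using fun m : ℕ => (hS2 (Metric.closedBall (0 : V d) m) (isCompact_closedBall _ _)).1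
  choose B hPot using fun S1 : ℕ => hPODF d Γ K m0 Gs b (S1 : ℝ) hFd hSF
  obtain ⟨hCm, hCb⟩ := hCFC d
  obtain ⟨CN, hCN, hNN⟩ := hNNC d
  choose v0 hv0 hbad using fun q : ℕ × ℕ => hBCP (1 / ((q.2 + 1 : ℕ) : ℝ)) (B q.1) (q.1 : ℝ) h (e / 2) (Nat.cast_nonneg _) hTD (half_pos he)
  -- the conclusion for one pair of parameters
  have key : ∀ a : (ℕ × ℕ) × ℕ, ∀ᵐ ζ ∂PN, ∃ I1 : ℕ, ∀ i : ℕ, I1 ≤ i → ∃ (K' : ℕ) (v : (ℕ × ℕ → ℝ) → ℕ × ℕ → ℝ),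
      2 ^ K' ≤ Real.sqrt i ∧ Real.sqrt i ≤ 2 ^ (K' + 1) ∧ (∀ ζ q, |v ζ q| ≤ 1) ∧
      (∀ ζ : ℕ × ℕ → ℝ, (∀ q, |ζ q| ≤ 1) → ∀ q : ℕ × ℕ, q.1 ≤ 4 * K' → q.1 ≠ K' → q.2 < J q.1 → |v ζ q - ζ q| ≤ Real.sqrt i ^ (-10 : ℝ)) ∧
      ((∀ q, |ζ q| ≤ 1) → ∀ s : V m0, ‖s‖ ≤ (a.1.1 : ℝ) → Cls Γ K (1 / ((a.1.2 + 1 : ℕ) : ℝ)) (B a.1.1) (cfm (bD χ K' (v ζ)) (Gs s)) →
        (∀ Φ : ℝ → P d → P d, IsFlow (cfm (bD χ K' (v ζ)) (Gs s)) Φ → UWLD F0 (cfm (bD χ K' (v ζ)) (Gs s)) Φ h (e / 2 / 1600) (v0 a.1) ((a.2 + 1 : ℕ) : ℝ)) →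
        ∀ (μ : ℝ) (φ : V d → ℂ), 0 < μ → |Real.sqrt μ - Real.sqrt i| ≤ Real.sqrt i ^ (-(1 / 100) : ℝ) →
          Eigenfunction Γ (cfm (rD χ ζ) (Gs s)) μ φ →
            |(∫ x in F0, h x * ‖φ x‖ ^ 2 ∂mv (cfm (bD χ K' (v ζ)) (Gs s))) - mean (cfm (bD χ K' (v ζ)) (Gs s)) F0 h * nn (cfm (bD χ K' (v ζ)) (Gs s)) F0 φ| ≤
              e / 2 * nn (cfm (bD χ K' (v ζ)) (Gs s)) F0 φ) := by
    intro a
    obtain ⟨i0, hi0⟩ := hbad a.1 ((a.2 + 1 : ℕ) : ℝ) (by push_cast; linarith [(Nat.cast_nonneg a.2 : (0 : ℝ) ≤ a.2)])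
    choose K' v hKv using fun j : ℕ => hi0 (i0 + 1 + j) (by omega)
    have hae := ae_eventually_notMem (VN.BC2N_sum i0 _ (fun j => (hKv j).2.2.2.2))
    filter_upwards [hae] with ζ hζ
    obtain ⟨J1, hJ1⟩ := eventually_atTop.1 hζ
    refine ⟨i0 + 1 + J1, fun i hi => ?_⟩
    obtain ⟨j, rfl⟩ : ∃ j, i = i0 + 1 + j := ⟨i - (i0 + 1), by omega⟩
    refine ⟨K' j, v j, (hKv j).1, (hKv j).2.1, (hKv j).2.2.1, (hKv j).2.2.2.1, ?_⟩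
    intro h1 s hsS hpot h2 μ φ hμ1 hμ2 hμ3
    by_contra hcon
    rw [not_le] at hcon
    exact hJ1 j (by omega) ⟨h1, s, hsS, hpot, h2, μ, φ, hμ1, hμ2, hμ3, hcon⟩
  filter_upwards [ae_all_iff.2 key, hone] with ζ hζ h1
  intro sp hneg
  obtain ⟨S1, hS1p⟩ := exists_nat_ge ‖sp‖
  have hG0 : IsMetric (Gs sp) := hSF.met sp
  obtain ⟨s1, s2, -⟩ := hS1 ζ h1
  have hbζ : ∀ (m n : ℕ) (x : V d), ‖x‖ ≤ m → ‖iteratedFDeriv ℝ n (rD χ ζ) x‖ ≤ b m n := fun m n x hx =>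
    (hb m ζ h1 n).1 x (by rwa [mem_closedBall_zero_iff])
  obtain ⟨q, s, hq, hs, hPG⟩ := hPot S1 sp hS1p (rD χ ζ) s1 s2 hbζ hneg
  obtain ⟨q1, rfl⟩ : ∃ q1, q = q1 + 1 := ⟨q - 1, by omega⟩
  have hGζ := hPG (rD χ ζ) s1 s2 hbζ (fun n _ => VD.BC2D_zero K n _ s hs.le)
  obtain ⟨T0, m, s', hT0, hs', hUW⟩ := hIUWD d Γ K F0 _ (B S1) (cfm (rD χ ζ) (Gs sp)) h (e / 2 / 1600) (v0 (S1, q1)) h2d hFd hFX hGζ hTD (by positivity) (hv0 (S1, q1))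
  obtain ⟨I1, hI1⟩ := hζ ((S1, q1), T0 - 1)
  -- bounds on the ball of radius `m`
  have hG0b : ∀ i : ℕ, ∃ c : ℝ, ∀ x ∈ Metric.closedBall (0 : V d) m, ‖iteratedFDeriv ℝ i (Gs sp) x‖ ≤ c := fun i =>
    (isCompact_closedBall (0 : V d) (m : ℝ)).exists_bound_of_continuousOn (hG0.smooth.continuous_iteratedFDeriv (by exact_mod_cast le_top)).continuousOn
  choose c0 hc0 using hG0b
  obtain ⟨M, hMd⟩ : ∃ M, M = 1 + |b m 0| + |b m 1| + |c0 0| + |c0 1| := ⟨_, rfl⟩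
  have hMb : ∀ i ≤ 1, b m i ≤ M ∧ c0 i ≤ M := by
    intro i hi
    have g1 := le_abs_self (b m 0)
    have g2 := le_abs_self (b m 1)
    have g3 := le_abs_self (c0 0)
    have g4 := le_abs_self (c0 1)
    have g5 := abs_nonneg (b m 0)
    have g6 := abs_nonneg (b m 1)
    have g7 := abs_nonneg (c0 0)
    have g8 := abs_nonneg (c0 1)
    interval_cases i
    · constructor <;> linarith
    · constructor <;> linarith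
  have hM1 : 1 ≤ M := by
    have g5 := abs_nonneg (b m 0)
    have g6 := abs_nonneg (b m 1)
    have g7 := abs_nonneg (c0 0)
    have g8 := abs_nonneg (c0 1)
    linarith
  obtain ⟨Ca, hCa, hCa'⟩ := hCb 0 M hM1
  obtain ⟨Cc, hCc, hCc'⟩ := hCb 1 M hM1
  obtain ⟨s3, hs3d⟩ : ∃ s3, s3 = min 1 (s' / (Ca + Cc)) := ⟨_, rfl⟩
  have hCac : 0 < Ca + Cc := by linarith
  have hs3 : 0 < s3 := by rw [hs3d]; exact lt_min one_pos (div_pos hs' hCac)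
  have hs31 : s3 ≤ 1 := by rw [hs3d]; exact min_le_left _ _
  have hs32 : (Ca + Cc) * s3 ≤ s' := by
    rw [hs3d]
    calc (Ca + Cc) * min 1 (s' / (Ca + Cc)) ≤ (Ca + Cc) * (s' / (Ca + Cc)) := mul_le_mul_of_nonneg_left (min_le_right _ _) hCac.le
      _ = s' := by field_simp
  obtain ⟨η, hηd⟩ : ∃ η, η = min 1 (e / (2 * (3 + e)) / CN) := ⟨_, rfl⟩
  have hCN0 : 0 < CN := by linarith
  have hη : 0 < η := by rw [hηd]; exact lt_min one_pos (by positivity)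
  have hη1 : η ≤ 1 := by rw [hηd]; exact min_le_left _ _
  have hη2 : CN * η ≤ e / (2 * (3 + e)) := by
    rw [hηd]
    calc CN * min 1 (e / (2 * (3 + e)) / CN) ≤ CN * (e / (2 * (3 + e)) / CN) := mul_le_mul_of_nonneg_left (min_le_right _ _) hCN0.le
      _ = _ := by field_simp
  obtain ⟨Ka, hKa⟩ := (hS2 K hFd.compact).2 2 (min s η) (lt_min hs hη)
  obtain ⟨Kb, hKb⟩ := (hS2 (Metric.closedBall (0 : V d) m) (isCompact_closedBall _ _)).2 1 s3 hs3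
  obtain ⟨K0, hK0d⟩ : ∃ K0, K0 = max Ka Kb := ⟨_, rfl⟩
  -- the threshold
  refine ⟨max (max 1 ((I1 : ℝ) + 1)) ((2 : ℝ) ^ (2 * K0) + 2), lt_of_lt_of_le one_pos ((le_max_left _ _).trans (le_max_left _ _)), ?_⟩
  intro μ φ hμ hE
  have hμ1 : 1 ≤ μ := ((le_max_left _ _).trans (le_max_left _ _)).trans hμ
  have hμ2 : (I1 : ℝ) + 1 ≤ μ := ((le_max_right _ _).trans (le_max_left _ _)).trans hμ
  have hμ3 : (2 : ℝ) ^ (2 * K0) + 2 ≤ μ := (le_max_right _ _).trans hμ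
  have hfl : μ < (⌊μ⌋₊ : ℕ) + 1 := Nat.lt_floor_add_one μ
  have hi1 : I1 ≤ ⌊μ⌋₊ := Nat.le_floor (by linarith)
  have hi2 : (2 : ℝ) ^ (2 * K0) < ((⌊μ⌋₊ : ℕ) : ℝ) := by linarith
  have hi3 : (1 : ℝ) ≤ ((⌊μ⌋₊ : ℕ) : ℝ) := by
    have : (1 : ℝ) ≤ 2 ^ (2 * K0) := one_le_pow₀ (by norm_num)
    linarith
  obtain ⟨K', v, hK1, hK2, hv1, hv, hgood⟩ := hI1 ⌊μ⌋₊ hi1
  have hsq1 : 1 ≤ Real.sqrt (⌊μ⌋₊ : ℕ) := Real.one_le_sqrt.2 hi3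
  have hKK : K0 ≤ K' := by
    have h3 : (2 : ℝ) ^ K0 < Real.sqrt (⌊μ⌋₊ : ℕ) := by
      rw [Real.lt_sqrt (by positivity), ← pow_mul, mul_comm K0 2]
      exact hi2
    have h4 : (2 : ℝ) ^ K0 < 2 ^ (K' + 1) := lt_of_lt_of_le h3 hK2
    have h5 := (pow_lt_pow_iff_right₀ (by norm_num : (1 : ℝ) < 2)).1 h4
    omega
  have hm0 : 0 < Real.sqrt (⌊μ⌋₊ : ℕ) ^ (-10 : ℝ) := Real.rpow_pos_of_pos (by linarith) _
  have hm1 : Real.sqrt (⌊μ⌋₊ : ℕ) ^ (-10 : ℝ) ≤ 1 / 2 ^ K' := by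
    have e1 : Real.sqrt (⌊μ⌋₊ : ℕ) ^ (-10 : ℝ) ≤ Real.sqrt (⌊μ⌋₊ : ℕ) ^ (-1 : ℝ) :=
      Real.rpow_le_rpow_of_exponent_le hsq1 (by norm_num)
    refine e1.trans ?_
    rw [Real.rpow_neg_one, one_div]
    exact inv_anti₀ (by positivity) hK1
  have hKaK : Ka ≤ K' := (le_max_left Ka Kb).trans (by rw [← hK0d]; exact hKK)
  have hKbK : Kb ≤ K' := (le_max_right Ka Kb).trans (by rw [← hK0d]; exact hKK)
  have hclK := hKa K' ζ (v ζ) (Real.sqrt (⌊μ⌋₊ : ℕ) ^ (-10 : ℝ)) hKaK h1 hm0 hm1 (hv ζ h1)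
  have hclB := hKb K' ζ (v ζ) (Real.sqrt (⌊μ⌋₊ : ℕ) ^ (-10 : ℝ)) hKbK h1 hm0 hm1 (hv ζ h1)
  obtain ⟨t1, t2, -, -⟩ := (hS1 (v ζ) (hv1 ζ)).2.2 K'
  have hbv : ∀ (m n : ℕ) (x : V d), ‖x‖ ≤ m → ‖iteratedFDeriv ℝ n (bD χ K' (v ζ)) x‖ ≤ b m n := fun m n x hx =>
    (hb m (v ζ) (hv1 ζ) n).2 K' x (by rwa [mem_closedBall_zero_iff])
  have hGv := hPG (bD χ K' (v ζ)) t1 t2 hbv (fun n hn x hx => (hclK n hn x hx).trans (min_le_left _ _))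
  have hGvm : IsMetric (cfm (bD χ K' (v ζ)) (Gs sp)) := hCm _ _ t1 hG0
  -- the inequality for the truncated metric
  have hmain := hgood h1 sp hS1p hGv (by
    intro Φ hΦ
    have hclose : ∀ (n : ℕ) (x : V d), n ≤ 1 → ‖x‖ ≤ m → ‖iteratedFDeriv ℝ n (fun y => cfm (rD χ ζ) (Gs sp) y - cfm (bD χ K' (v ζ)) (Gs sp) y) x‖ ≤ s' := by
      intro n x hn hx
      have hx' : x ∈ Metric.closedBall (0 : V d) (m : ℝ) := by rwa [mem_closedBall_zero_iff]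
      have hbd : ∀ i ≤ n, ‖iteratedFDeriv ℝ i (rD χ ζ) x‖ ≤ M ∧ ‖iteratedFDeriv ℝ i (bD χ K' (v ζ)) x‖ ≤ M ∧ ‖iteratedFDeriv ℝ i (Gs sp) x‖ ≤ M := by
        intro i hi
        have hi' : i ≤ 1 := hi.trans hn
        exact ⟨(hbζ m i x hx).trans (hMb i hi').1, (hbv m i x hx).trans (hMb i hi').1, (hc0 i x hx').trans (hMb i hi').2⟩
      have hdf : ∀ i ≤ n, ‖iteratedFDeriv ℝ i (fun y => rD χ ζ y - bD χ K' (v ζ) y) x‖ ≤ s3 := fun i hi => hclB i (hi.trans hn) x hx'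
      interval_cases n
      · have g := (hCa' (rD χ ζ) (bD χ K' (v ζ)) (Gs sp) x s3 s1 t1 hG0 hs3.le hs31 hbd).2 hdf
        refine g.trans (le_trans ?_ hs32)
        nlinarith
      · have g := (hCc' (rD χ ζ) (bD χ K' (v ζ)) (Gs sp) x s3 s1 t1 hG0 hs3.le hs31 hbd).2 hdf
        refine g.trans (le_trans ?_ hs32)
        nlinarith
    have hU := hUW _ Φ hGvm hΦ hclose
    have hT : ((T0 - 1 + 1 : ℕ) : ℝ) = (T0 : ℝ) := by rw [Nat.sub_add_cancel hT0]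
    show UWLD F0 (cfm (bD χ K' (v ζ)) (Gs sp)) Φ h (e / 2 / 1600) (v0 (S1, q1)) ((T0 - 1 + 1 : ℕ) : ℝ)
    rw [hT]
    exact hU) μ φ (by linarith) (VN.BC2N_floor μ hμ1) hE
  -- comparison of the two metrics
  obtain ⟨rK, hrK⟩ := hFd.compact.isBounded.exists_norm_le
  have hfη : ∀ x, |rD χ ζ x - bD χ K' (v ζ) x| ≤ η := by
    intro x
    obtain ⟨γ, hγ⟩ := hFd.cover x
    have g := (hclK 0 (by norm_num) (γ • x) hγ).trans (min_le_right _ _)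
    rw [norm_iteratedFDeriv_zero, Real.norm_eq_abs, s2 γ x, t2 γ x] at g
    exact g
  obtain ⟨n1, n2, n3⟩ := hNN (cfm (bD χ K' (v ζ)) (Gs sp)) (fun x => rD χ ζ x - bD χ K' (v ζ) x) h φ F0 rK η hGvm (s1.sub t1) hη.le hη1 hfη
    hFX.meas (fun x hx => hrK x (hFX.sub hx)) hE.1.continuous hTD.smooth.continuous hTD.bd
  rw [VD.BC2D_cfm] at n1 n2 n3
  have hmn := (hMVE d (cfm (rD χ ζ) (Gs sp)) (hCm _ _ s1 hG0)).2.2.2.2 F0 h hFX.meas hTD.bd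
  exact VD.BC2D_real he hCN hη.le hη2 n1 n2 n3 hmn (integral_nonneg fun x => by positivity) hmain

end

end Pool.Agent.VDI
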